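import Mathlib

/-!
# Grid-free affine hypersurfaces need arbitrarily large degree

For every `t ≥ 3` and every `d` there is an irreducible `(2,t)`-grid-free affine hypersurface of
`𝔸² × 𝔸²` over `ℂ` that is not of the form `{F ∘ (id × σ) = 0}` with `σ` a polynomial automorphism
of `𝔸²` and `F` of degree at most `d` in `y`.

Example: `y₁² + y₂^(2M) + x₁ y₂ + x₂ = 0` with `M > d`.  Over two different points `x, x'` the
coordinate `y₂` and the square of `y₁` are determined.  At `x = 0` the polynomial is the product of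
`y₁ + i y₂^M` and `y₁ - i y₂^M`.  If `H = {F ∘ (id × σ) = 0}` then `F(0, ·)`, a polynomial of degree
at most `d`, is divisible by the images of both factors under the inverse of `σ`, so the difference
`2 i v^M` of these two polynomials, `v` not constant, has degree at most `d < M`.
-/

namespace Pool.Agent.Results.MP_a64928_ag.NoDegreeBound

open MvPolynomial

/-- The ring `ℂ[x₁, …, x_s, y₁, …, y_s]`: the variable `x_i` is `X (Sum.inl i)`, the variable `y_i` is
`X (Sum.inr i)`. -/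
abbrev Poly (s : ℕ) : Type := MvPolynomial (Fin s ⊕ Fin s) ℂ

/-- The points of `𝔸^s × 𝔸^s`. -/
abbrev Pt (s : ℕ) : Type := (Fin s → ℂ) × (Fin s → ℂ)

/-- The value of `F ∈ ℂ[x, y]` at the point `(u, v)`. -/
noncomputable def value {s : ℕ} (F : Poly s) (u v : Fin s → ℂ) : ℂ := eval (Sum.elim u v) F

/-- An affine hypersurface of `𝔸^s × 𝔸^s`: the zero set of a nonconstant polynomial. -/
def IsAffineHypersurface {s : ℕ} (H : Set (Pt s)) : Prop :=
  ∃ F : Poly s, (∀ c : ℂ, F ≠ C c) ∧ H = {p | value F p.1 p.2 = 0}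

/-- The algebraic (Zariski closed) subsets of `𝔸^s × 𝔸^s`. -/
def IsAlgebraic {s : ℕ} (Z : Set (Pt s)) : Prop :=
  ∃ S : Set (Poly s), Z = {p | ∀ F ∈ S, value F p.1 p.2 = 0}

/-- `H` is irreducible as an algebraic set: it is not empty, and if it is contained in the union of
two algebraic sets then it is contained in one of them. -/
def IsIrred {s : ℕ} (H : Set (Pt s)) : Prop :=
  H.Nonempty ∧ ∀ A B : Set (Pt s), IsAlgebraic A → IsAlgebraic B → H ⊆ A ∪ B → H ⊆ A ∨ H ⊆ B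

/-- `V ⊆ P₁ × P₂` contains no `(s,t)`-grid `S × T`, `|S| = s`, `|T| = t`. -/
def GridFree {P₁ P₂ : Type*} (s t : ℕ) (V : Set (P₁ × P₂)) : Prop :=
  ¬ ∃ (S : Finset P₁) (T : Finset P₂), S.card = s ∧ T.card = t ∧
    ∀ a ∈ S, ∀ b ∈ T, (a, b) ∈ V

/-- The degree of `F ∈ ℂ[x][y]` in `y = (y₁, …, y_s)` is at most `d`. -/
def DegYLE {s : ℕ} (F : Poly s) (d : ℕ) : Prop :=
  ∀ m ∈ F.support, ∑ i : Fin s, m (Sum.inr i) ≤ d

/-- The map `ℂ^s → ℂ^s` is given by polynomials. -/
def IsPolyMap {s : ℕ} (f : (Fin s → ℂ) → (Fin s → ℂ)) : Prop :=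
  ∃ P : Fin s → MvPolynomial (Fin s) ℂ, ∀ v i, f v i = eval v (P i)

/-- The polynomial automorphisms of `𝔸^s`: the polynomial maps with a polynomial inverse. -/
def IsPolyAut {s : ℕ} (σ : (Fin s → ℂ) ≃ (Fin s → ℂ)) : Prop :=
  IsPolyMap σ ∧ IsPolyMap σ.symm

/-- `H = {F ∘ (id × σ) = 0}` for some `σ ∈ Aut(𝔸^s)` and some `F` of degree at most `d` in `y`. -/
def HasForm {s : ℕ} (H : Set (Pt s)) (d : ℕ) : Prop :=
  ∃ σ : (Fin s → ℂ) ≃ (Fin s → ℂ), IsPolyAut σ ∧ ∃ F : Poly s, DegYLE F d ∧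
    H = {p | value F p.1 (σ p.2) = 0}

/-! ### The example -/

/-- `y₁² + y₂^(2M) + x₁ y₂ + x₂` -/
noncomputable def h (M : ℕ) : Poly 2 :=
  X (Sum.inr 0) ^ 2 + X (Sum.inr 1) ^ (2 * M) + X (Sum.inl 0) * X (Sum.inr 1) + X (Sum.inl 1)

lemma value_h (M : ℕ) (u v : Fin 2 → ℂ) :
    value (h M) u v = v 0 ^ 2 + v 1 ^ (2 * M) + u 0 * v 1 + u 1 := by
  simp [value, h]

lemma h_ne (M : ℕ) (c : ℂ) : h M ≠ C c := by
  intro hc
  have h1 := value_h M ![0, 0] ![0, 0]
  have h2 := value_h M ![0, 1] ![0, 0]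
  rw [hc] at h1 h2
  simp only [value, eval_C] at h1 h2
  rw [h1] at h2
  simp at h2

/-- the substitution `x₂ ↦ -(y₁² + y₂^(2M) + x₁ y₂)` -/
noncomputable def sub (M : ℕ) : Poly 2 →ₐ[ℂ] Poly 2 :=
  aeval fun i => if i = Sum.inl 1 then
    -(X (Sum.inr 0) ^ 2 + X (Sum.inr 1) ^ (2 * M) + X (Sum.inl 0) * X (Sum.inr 1)) else X i

/-- the point of the hypersurface over `(x₁, y)` -/
noncomputable def pt (M : ℕ) (u v : Fin 2 → ℂ) : Fin 2 → ℂ :=
  ![u 0, -(v 0 ^ 2 + v 1 ^ (2 * M) + u 0 * v 1)]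

lemma value_sub (M : ℕ) (F : Poly 2) (u v : Fin 2 → ℂ) :
    value (sub M F) u v = value F (pt M u v) v := by
  have h1 : ((eval (Sum.elim u v)).comp (sub M : Poly 2 →+* Poly 2)) =
      eval (Sum.elim (pt M u v) v) := by
    apply MvPolynomial.ringHom_ext
    · intro r
      simp [sub]
    · intro i
      rcases i with i | i
      · fin_cases i
        · simp [sub, pt]
        · simp [sub, pt]
      · simp [sub]
  exact congrFun (congrArg DFunLike.coe h1) F

lemma pt_mem (M : ℕ) (u v : Fin 2 → ℂ) : value (h M) (pt M u v) v = 0 := by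
  rw [value_h]
  simp only [pt, Matrix.cons_val_zero, Matrix.cons_val_one]
  ring

lemma pt_eq (M : ℕ) (u v : Fin 2 → ℂ) (huv : value (h M) u v = 0) : pt M u v = u := by
  rw [value_h] at huv
  funext i
  fin_cases i
  · rfl
  · simp only [pt]
    show -(v 0 ^ 2 + v 1 ^ (2 * M) + u 0 * v 1) = u 1
    linear_combination -huv

lemma irred (M : ℕ) : IsIrred {p : Pt 2 | value (h M) p.1 p.2 = 0} := by
  refine ⟨⟨(pt M 0 0, 0), pt_mem M 0 0⟩, ?_⟩
  rintro A B ⟨S, rfl⟩ ⟨T, rfl⟩ hAB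
  by_contra hcon
  rw [not_or, Set.not_subset, Set.not_subset] at hcon
  obtain ⟨⟨p, hp, hpA⟩, ⟨q, hq, hqB⟩⟩ := hcon
  simp only [Set.mem_ofPred_eq, not_forall] at hpA hqB hp hq
  obtain ⟨F, hF, hFp⟩ := hpA
  obtain ⟨G, hG, hGq⟩ := hqB
  have hF0 : sub M F ≠ 0 := by
    intro h0
    apply hFp
    rw [← pt_eq M p.1 p.2 hp, ← value_sub, h0]
    simp [value]
  have hG0 : sub M G ≠ 0 := by
    intro h0
    apply hGq
    rw [← pt_eq M q.1 q.2 hq, ← value_sub, h0]
    simp [value]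
  have hFG : sub M F * sub M G ≠ 0 := mul_ne_zero hF0 hG0
  obtain ⟨z, hz⟩ : ∃ z, eval z (sub M F * sub M G) ≠ 0 := by
    by_contra hall
    push Not at hall
    exact hFG (MvPolynomial.funext fun z => by rw [hall z, map_zero])
  have hz' : z = Sum.elim (z ∘ Sum.inl) (z ∘ Sum.inr) := by
    funext i
    rcases i with i | i <;> rfl
  rw [map_mul, hz'] at hz
  have h1 : value (sub M F) (z ∘ Sum.inl) (z ∘ Sum.inr) ≠ 0 := left_ne_zero_of_mul hz
  have h2 : value (sub M G) (z ∘ Sum.inl) (z ∘ Sum.inr) ≠ 0 := right_ne_zero_of_mul hz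
  rw [value_sub] at h1 h2
  rcases hAB (show (pt M (z ∘ Sum.inl) (z ∘ Sum.inr), z ∘ Sum.inr) ∈ _ from pt_mem M _ _) with h3 | h3
  · exact h1 (h3 F hF)
  · exact h2 (h3 G hG)

lemma gridFree (M t : ℕ) (ht : 3 ≤ t) : GridFree 2 t {p : Pt 2 | value (h M) p.1 p.2 = 0} := by
  rintro ⟨S, T, hS, hT, hST⟩
  obtain ⟨a, b, hab, rfl⟩ := Finset.card_eq_two.1 hS
  have key : ∀ v ∈ T, ∀ w ∈ T, v 1 = w 1 ∧ v 0 ^ 2 = w 0 ^ 2 := by
    have h1 : ∀ v ∈ T, (a 0 - b 0) * v 1 + (a 1 - b 1) = 0 := by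
      intro v hv
      have e1 := hST a (by simp) v hv
      have e2 := hST b (by simp) v hv
      simp only [Set.mem_ofPred_eq, value_h] at e1 e2
      linear_combination e1 - e2
    have h2 : T.Nonempty := by
      rw [← Finset.card_pos]; omega
    have h3 : a 0 - b 0 ≠ 0 := by
      intro h0
      obtain ⟨v, hv⟩ := h2
      have e := h1 v hv
      rw [h0, zero_mul, zero_add] at e
      apply hab
      funext i
      fin_cases i
      · exact sub_eq_zero.1 h0
      · exact sub_eq_zero.1 e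
    intro v hv w hw
    have h4 : v 1 = w 1 := by
      have e1 := h1 v hv
      have e2 := h1 w hw
      have e3 : (a 0 - b 0) * (v 1 - w 1) = 0 := by linear_combination e1 - e2
      rcases mul_eq_zero.1 e3 with h | h
      · exact absurd h h3
      · exact sub_eq_zero.1 h
    refine ⟨h4, ?_⟩
    have e1 := hST a (by simp) v hv
    have e2 := hST a (by simp) w hw
    simp only [Set.mem_ofPred_eq, value_h] at e1 e2
    rw [h4] at e1
    linear_combination e1 - e2
  -- three different elements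
  have hT3 : 2 < T.card := by omega
  obtain ⟨v₁, v₂, v₃, h1, h2, h3, h12, h13, h23⟩ := Finset.two_lt_card_iff.1 hT3
  have ne : ∀ v ∈ T, ∀ w ∈ T, v ≠ w → v 0 + w 0 = 0 := by
    intro v hv w hw hvw
    obtain ⟨e1, e2⟩ := key v hv w hw
    have e3 : (v 0 - w 0) * (v 0 + w 0) = 0 := by linear_combination e2
    rcases mul_eq_zero.1 e3 with h | h
    · exfalso
      apply hvw
      funext i
      fin_cases i
      · exact sub_eq_zero.1 h
      · exact e1
    · exact h
  have e12 := ne _ h1 _ h2 h12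
  have e13 := ne _ h1 _ h3 h13
  apply h23
  obtain ⟨e1, -⟩ := key _ h2 _ h3
  funext i
  fin_cases i
  · show v₂ 0 = v₃ 0
    linear_combination e12 - e13
  · exact e1

lemma totalDegree_pow' {σ : Type*} (f : MvPolynomial σ ℂ) (hf : f ≠ 0) (n : ℕ) :
    (f ^ n).totalDegree = n * f.totalDegree := by
  induction n with
  | zero => simp
  | succ n ih =>
    rw [pow_succ, totalDegree_mul_of_isDomain (pow_ne_zero n hf) hf, ih]
    ring

/-- A polynomial in the two coordinates of the inverse of `σ`: if `G ∘ σ` vanishes on the curve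
`y₁ = c y₂^M`, then `G` is divisible by the image of `y₁ - c y₂^M`. -/
lemma dvd_of_vanish (M : ℕ) (c : ℂ) (P Q : Fin 2 → MvPolynomial (Fin 2) ℂ)
    (σ : (Fin 2 → ℂ) ≃ (Fin 2 → ℂ)) (hP : ∀ v i, σ v i = eval v (P i))
    (hQ : ∀ v i, σ.symm v i = eval v (Q i)) (G : MvPolynomial (Fin 2) ℂ)
    (hG : ∀ y : ℂ, eval (σ ![c * y ^ M, y]) G = 0) : Q 0 - C c * Q 1 ^ M ∣ G := by
  -- `G ∘ σ ∘ σ⁻¹ = G`
  have h1 : bind₁ Q (bind₁ P G) = G := by
    apply MvPolynomial.funext
    intro v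
    have e1 : ∀ (R : Fin 2 → MvPolynomial (Fin 2) ℂ) (A : MvPolynomial (Fin 2) ℂ) (v : Fin 2 → ℂ),
        eval v (bind₁ R A) = eval (fun i => eval v (R i)) A := by
      intro R A v
      rw [← aeval_eq_eval, ← aeval_eq_eval, aeval_bind₁]
    rw [e1, e1]
    have e2 : (fun i => eval v (Q i)) = σ.symm v := funext fun i => (hQ v i).symm
    rw [e2]
    have e3 : (fun i => eval (σ.symm v) (P i)) = v := by
      funext i
      rw [← hP, Equiv.apply_symm_apply]
    rw [e3]
  -- `G ∘ σ` vanishes after the substitution `y₁ = c y₂^M`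
  have h2 : bind₁ (![C c * X 1 ^ M, X 1] : Fin 2 → MvPolynomial (Fin 2) ℂ) (bind₁ P G) = 0 := by
    apply MvPolynomial.funext
    intro v
    have e1 : ∀ (R : Fin 2 → MvPolynomial (Fin 2) ℂ) (A : MvPolynomial (Fin 2) ℂ) (v : Fin 2 → ℂ),
        eval v (bind₁ R A) = eval (fun i => eval v (R i)) A := by
      intro R A v
      rw [← aeval_eq_eval, ← aeval_eq_eval, aeval_bind₁]
    rw [e1, e1, map_zero]
    have e2 : (fun i => eval v ((![C c * X 1 ^ M, X 1] : Fin 2 → MvPolynomial (Fin 2) ℂ) i)) =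
        ![c * v 1 ^ M, v 1] := by
      funext i
      fin_cases i <;> simp
    rw [e2]
    have e3 : (fun i => eval ![c * v 1 ^ M, v 1] (P i)) = σ ![c * v 1 ^ M, v 1] :=
      funext fun i => (hP _ i).symm
    rw [e3]
    exact hG (v 1)
  rw [← Ideal.mem_span_singleton, ← Ideal.Quotient.eq_zero_iff_mem]
  set π := Ideal.Quotient.mkₐ ℂ (Ideal.span {Q 0 - C c * Q 1 ^ M}) with hπ
  have h3 : π (Q 0) = π (C c * Q 1 ^ M) := by
    rw [← sub_eq_zero, ← map_sub]
    exact Ideal.Quotient.eq_zero_iff_mem.2 (Ideal.mem_span_singleton_self _)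
  have h4 : ∀ A : MvPolynomial (Fin 2) ℂ, π (bind₁ Q A) =
      π (bind₁ Q (bind₁ (![C c * X 1 ^ M, X 1] : Fin 2 → MvPolynomial (Fin 2) ℂ) A)) := by
    have h5 : π.comp (bind₁ Q) =
        (π.comp (bind₁ Q)).comp (bind₁ (![C c * X 1 ^ M, X 1] : Fin 2 → MvPolynomial (Fin 2) ℂ)) := by
      apply MvPolynomial.algHom_ext
      intro i
      fin_cases i
      · simp only [AlgHom.comp_apply, bind₁_X_right]
        show π (Q 0) = π (bind₁ Q (C c * X 1 ^ M))
        rw [map_mul, map_pow, bind₁_C_right, bind₁_X_right]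
        exact h3
      · simp only [AlgHom.comp_apply, bind₁_X_right]
        show π (Q 1) = π (bind₁ Q (X 1))
        rw [bind₁_X_right]
    intro A
    exact DFunLike.congr_fun h5 A
  show π G = 0
  rw [← h1, h4, h2, map_zero, map_zero]

lemma notForm (d M : ℕ) (hM : d < M) :
    ¬ HasForm {p : Pt 2 | value (h M) p.1 p.2 = 0} d := by
  rintro ⟨σ, ⟨⟨P, hP⟩, ⟨Q, hQ⟩⟩, F, hF, hH⟩
  -- `F(0, y)`
  set G : MvPolynomial (Fin 2) ℂ := aeval (Sum.elim (fun _ => 0) X) F with hGdef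
  have hGev : ∀ w : Fin 2 → ℂ, eval w G = value F 0 w := by
    have h1 : ∀ w : Fin 2 → ℂ, (eval w).comp
        ((aeval (Sum.elim (fun _ => 0) X) : Poly 2 →ₐ[ℂ] MvPolynomial (Fin 2) ℂ) :
          Poly 2 →+* MvPolynomial (Fin 2) ℂ) = eval (Sum.elim 0 w) := by
      intro w
      apply MvPolynomial.ringHom_ext
      · intro r
        simp
      · intro i
        rcases i with i | i
        · simp
        · simp
    intro w
    exact DFunLike.congr_fun (h1 w) F
  have hGdeg : G.totalDegree ≤ d := by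
    rw [hGdef, F.as_sum, map_sum]
    apply totalDegree_finsetSum_le
    intro m hm
    rw [aeval_monomial]
    refine (totalDegree_mul _ _).trans ?_
    have e1 : (algebraMap ℂ (MvPolynomial (Fin 2) ℂ) (coeff m F)).totalDegree = 0 := by
      rw [algebraMap_eq, totalDegree_C]
    rw [e1, zero_add, Finsupp.prod_fintype _ _ (fun i => pow_zero _), Fintype.prod_sum_type]
    refine (totalDegree_mul _ _).trans ?_
    have e2 : (∏ i : Fin 2, (Sum.elim (fun _ => 0) X : Fin 2 ⊕ Fin 2 → MvPolynomial (Fin 2) ℂ)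
        (Sum.inl i) ^ m (Sum.inl i)).totalDegree = 0 := by
      refine le_antisymm ?_ (Nat.zero_le _)
      refine (totalDegree_finsetProd _ _).trans ?_
      rw [nonpos_iff_eq_zero, Finset.sum_eq_zero_iff]
      intro i _
      refine le_antisymm ((totalDegree_pow _ _).trans ?_) (Nat.zero_le _)
      simp
    rw [e2, zero_add]
    refine (totalDegree_finsetProd _ _).trans (le_trans (Finset.sum_le_sum fun i _ => ?_) (hF m hm))
    refine (totalDegree_pow _ _).trans ?_
    simp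
  -- zero set of `G ∘ σ`
  have hzero : ∀ v : Fin 2 → ℂ, eval (σ v) G = 0 ↔ v 0 ^ 2 + v 1 ^ (2 * M) = 0 := by
    intro v
    have e1 : ((0, v) : Pt 2) ∈ {p : Pt 2 | value (h M) p.1 p.2 = 0} ↔
        ((0, v) : Pt 2) ∈ {p : Pt 2 | value F p.1 (σ p.2) = 0} := by rw [hH]
    simp only [Set.mem_ofPred_eq, value_h] at e1
    rw [hGev, ← e1]
    simp
  have hG0 : G ≠ 0 := by
    intro h0
    have e1 := (hzero ![1, 0]).1 (by rw [h0, map_zero])
    rcases Nat.eq_zero_or_pos M with h1 | h1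
    · omega
    · simp only [Matrix.cons_val_zero, Matrix.cons_val_one] at e1
      rw [zero_pow (by omega)] at e1
      norm_num at e1
  have hI : Complex.I ^ 2 = -1 := Complex.I_sq
  have hd1 : Q 0 - C Complex.I * Q 1 ^ M ∣ G := by
    apply dvd_of_vanish M Complex.I P Q σ hP hQ G
    intro y
    rw [hzero]
    simp only [Matrix.cons_val_zero, Matrix.cons_val_one]
    rw [mul_pow, hI, pow_mul' y 2 M]
    ring
  have hd2 : Q 0 - C (-Complex.I) * Q 1 ^ M ∣ G := by
    apply dvd_of_vanish M (-Complex.I) P Q σ hP hQ G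
    intro y
    rw [hzero]
    simp only [Matrix.cons_val_zero, Matrix.cons_val_one]
    rw [mul_pow, neg_sq, hI, pow_mul' y 2 M]
    ring
  have hb1 := (totalDegree_le_of_dvd_of_isDomain hd1 hG0).trans hGdeg
  have hb2 := (totalDegree_le_of_dvd_of_isDomain hd2 hG0).trans hGdeg
  have hdiff : (Q 0 - C (-Complex.I) * Q 1 ^ M) - (Q 0 - C Complex.I * Q 1 ^ M) =
      C (2 * Complex.I) * Q 1 ^ M := by
    rw [map_neg, map_mul]
    have : (C (2 : ℂ) : MvPolynomial (Fin 2) ℂ) = 2 := by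
      rw [map_ofNat]
    rw [this]
    ring
  have hb3 : (C (2 * Complex.I) * Q 1 ^ M).totalDegree ≤ d := by
    rw [← hdiff]
    exact (totalDegree_sub _ _).trans (max_le hb2 hb1)
  -- the second coordinate of `σ⁻¹` is not constant
  have hQ1 : (Q 1).totalDegree ≠ 0 := by
    intro h0
    rw [totalDegree_eq_zero_iff_eq_C] at h0
    have e1 := hQ (σ ![0, 0]) 1
    have e2 := hQ (σ ![0, 1]) 1
    rw [h0, eval_C, Equiv.symm_apply_apply] at e1 e2
    rw [← e1] at e2
    simp at e2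
  have hQ1' : Q 1 ≠ 0 := by
    intro h0
    rw [h0, totalDegree_zero] at hQ1
    exact hQ1 rfl
  have hC : (C (2 * Complex.I) : MvPolynomial (Fin 2) ℂ) ≠ 0 := by
    rw [Ne, C_eq_zero]
    exact mul_ne_zero two_ne_zero Complex.I_ne_zero
  rw [totalDegree_mul_of_isDomain hC (pow_ne_zero M hQ1'), totalDegree_C, zero_add,
    totalDegree_pow' _ hQ1'] at hb3
  have : M * 1 ≤ M * (Q 1).totalDegree := Nat.mul_le_mul_left M (Nat.one_le_iff_ne_zero.2 hQ1)
  omega

/-- For every `t ≥ 3` and every `d` there is an irreducible `(2,t)`-grid-free affine hypersurface of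
`𝔸² × 𝔸²` which is not of the form `{F ∘ (id × σ) = 0}` for any `σ ∈ Aut(𝔸²)` and any `F` of degree
at most `d` in `y`. -/
theorem result (t : ℕ) (ht : 3 ≤ t) (d : ℕ) :
    ∃ H : Set (Pt 2), IsAffineHypersurface H ∧ IsIrred H ∧ GridFree 2 t H ∧ ¬ HasForm H d :=
  ⟨{p | value (h (d + 1)) p.1 p.2 = 0}, ⟨h (d + 1), h_ne (d + 1), rfl⟩, irred (d + 1),
    gridFree (d + 1) t ht, notForm d (d + 1) (Nat.lt_succ_self d)⟩

end Pool.Agent.Results.MP_a64928_ag.NoDegreeBound
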